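import Pool.Agent.Helper54.LampWord

set_option autoImplicit false

namespace Pool.Agent.Results.MP_3fb3e0_al.FpUpperBound

open Pool.Agent.Helper54.Lamp

/-- **Question 1, affirmative answer.** For every prime `p`, every `k ≥ 1` and every finite
generating set `S` of `𝔽_p ≀ ℤ^k`, the conjugacy depth function is `≼ 2 ^ (n ^ k)`. -/
theorem result (p : ℕ) [Fact p.Prime] (k : ℕ) (hk : 1 ≤ k)
    (S : Set (Lamplighter (ZMod p) k)) (hfin : S.Finite) (hS : Subgroup.closure S = ⊤) :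
    Preceq (conjDepth S) (fun n => (2 : ℝ) ^ (n ^ k)) := by
  obtain ⟨M, hM, hMb⟩ := conjDepth_le (R := ZMod p) (k := k) (fun _ => 0) rfl
    (fun _ _ => le_rfl) (fun _ => rfl) hfin hS
  have hp : 0 < p := (Fact.out : p.Prime).pos
  refine ⟨(p + 1) * (13 * M), by positivity, fun n => ?_⟩
  rcases Nat.eq_zero_or_pos n with rfl | hn
  · refine ⟨0, by rw [conjDepth_zero hS]; rfl, ?_⟩
    push_cast
    positivity
  · have h1 := hMb n hn (ZMod p) (RingHom.id _) (fun a _ ha => ha)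
    have hne : conjDepth S n ≠ ⊤ := ne_top_of_le_ne_top (ENat.natCast_ne_top _) h1
    obtain ⟨m, hm⟩ := ENat.ne_top_iff_exists.1 hne
    refine ⟨m, hm.symm, ?_⟩
    rw [← hm] at h1
    have h2 : m ≤ Nat.card (ZMod p) ^ ((13 * (M * n)) ^ k) * (13 * (M * n)) ^ k := by
      exact_mod_cast h1
    rw [Nat.card_zmod] at h2
    have h3 : p ^ ((13 * (M * n)) ^ k) * (13 * (M * n)) ^ k ≤
        2 ^ (((p + 1) * (13 * M) * n) ^ k) := by
      generalize ha : (13 * (M * n)) ^ k = a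
      have e1 : p ^ a ≤ (2 ^ p) ^ a := Nat.pow_le_pow_left (Nat.lt_two_pow_self).le a
      have e2 : a ≤ 2 ^ a := (Nat.lt_two_pow_self).le
      have e3 : (p + 1) * a ≤ ((p + 1) * (13 * M) * n) ^ k := by
        have e4 : (p + 1) * (13 * M) * n = (p + 1) * (13 * (M * n)) := by ring
        rw [e4, mul_pow, ha]
        exact Nat.mul_le_mul_right _ (Nat.le_self_pow (by omega) _)
      calc p ^ a * a ≤ (2 ^ p) ^ a * 2 ^ a := Nat.mul_le_mul e1 e2
        _ = 2 ^ ((p + 1) * a) := by rw [← pow_mul, ← pow_add]; ring_nf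
        _ ≤ _ := Nat.pow_le_pow_right (by norm_num) e3
    have h4 : m ≤ ((p + 1) * (13 * M)) * 2 ^ (((p + 1) * (13 * M) * n) ^ k) :=
      (h2.trans h3).trans (Nat.le_mul_of_pos_left _ (by positivity))
    have h5 : (m : ℝ) ≤ (((p + 1) * (13 * M) : ℕ) : ℝ) *
        (2 : ℝ) ^ (((p + 1) * (13 * M) * n) ^ k) := by exact_mod_cast h4
    exact h5

end Pool.Agent.Results.MP_3fb3e0_al.FpUpperBound
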