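import Pool.Agent.Helper54.LampWord

set_option autoImplicit false

namespace Pool.Agent.Results.MP_3fb3e0_al.ZUpperBound

open Pool.Agent.Helper54.Lamp

theorem two_le_log {x : ℝ} (hx : 13 ≤ x) : 2 ≤ Real.log x := by
  rw [Real.le_log_iff_exp_le (by linarith)]
  have h1 : Real.exp 2 = Real.exp 1 ^ 2 := by
    rw [← Real.exp_nat_mul]
    norm_num
  have h2 := Real.exp_one_lt_d9
  have h3 := Real.exp_pos 1
  rw [h1]
  nlinarith

/-- **Question 2, affirmative answer.** For every `k ≥ 1` and every finite generating set `S` of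
`ℤ ≀ ℤ^k`, the conjugacy depth function is `≼ (log n) ^ (n ^ (2 k))`. -/
theorem result (k : ℕ) (hk : 1 ≤ k)
    (S : Set (Lamplighter ℤ k)) (hfin : S.Finite) (hS : Subgroup.closure S = ⊤) :
    Preceq (conjDepth S) (fun n => Real.log n ^ (n ^ (2 * k))) := by
  obtain ⟨M, hM, hMb⟩ := conjDepth_le (R := ℤ) (k := k) Int.natAbs Int.natAbs_zero
    Int.natAbs_add_le Int.natAbs_neg hfin hS
  refine ⟨13 * M, by positivity, fun n => ?_⟩
  rcases Nat.eq_zero_or_pos n with rfl | hn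
  · refine ⟨0, by rw [conjDepth_zero hS]; rfl, ?_⟩
    have hk2 : 2 * k ≠ 0 := by omega
    simp [hk2]
  · have hMn : 1 ≤ M * n := Nat.mul_pos hM hn
    have h1 := hMb n hn (ZMod (2 * (M * n) + 1)) (Int.castRingHom _) (fun a ha h0 => by
      have h0' : ((a : ℤ) : ZMod (2 * (M * n) + 1)) = 0 := h0
      rw [ZMod.intCast_zmod_eq_zero_iff_dvd] at h0'
      apply Int.eq_zero_of_abs_lt_dvd h0'
      rw [Int.abs_eq_natAbs]
      exact_mod_cast Nat.lt_succ_of_le ha)
    have hne : conjDepth S n ≠ ⊤ := ne_top_of_le_ne_top (ENat.natCast_ne_top _) h1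
    obtain ⟨m, hm⟩ := ENat.ne_top_iff_exists.1 hne
    refine ⟨m, hm.symm, ?_⟩
    rw [← hm] at h1
    have h2 : m ≤ Nat.card (ZMod (2 * (M * n) + 1)) ^ ((13 * (M * n)) ^ k) *
        (13 * (M * n)) ^ k := by
      exact_mod_cast h1
    rw [Nat.card_zmod] at h2
    have h3 : (2 * (M * n) + 1) ^ ((13 * (M * n)) ^ k) * (13 * (M * n)) ^ k ≤
        2 ^ ((13 * M * n) ^ (2 * k)) := by
      have e0 : 13 * M * n = 13 * (M * n) := by ring
      rw [e0]
      generalize M * n = t at *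
      have hkt : 13 * t ≤ (13 * t) ^ k := Nat.le_self_pow (by omega) _
      generalize ha : (13 * t) ^ k = a at *
      have e1 : 2 * t + 1 ≤ 2 ^ (2 * t) := Nat.lt_two_pow_self
      have e2 : a ≤ 2 ^ a := (Nat.lt_two_pow_self).le
      have e3 : (2 * t + 1) * a ≤ (13 * t) ^ (2 * k) := by
        rw [two_mul k, pow_add, ha]
        exact Nat.mul_le_mul_right _ (le_trans (by omega) hkt)
      calc (2 * t + 1) ^ a * a ≤ (2 ^ (2 * t)) ^ a * 2 ^ a :=
            Nat.mul_le_mul (Nat.pow_le_pow_left e1 a) e2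
        _ = 2 ^ ((2 * t + 1) * a) := by rw [← pow_mul, ← pow_add]; ring_nf
        _ ≤ _ := Nat.pow_le_pow_right (by norm_num) e3
    have h4 : (m : ℝ) ≤ 2 ^ ((13 * M * n) ^ (2 * k)) := by exact_mod_cast h2.trans h3
    have hC : (13 : ℝ) ≤ ((13 * M * n : ℕ) : ℝ) := by
      have : 13 ≤ 13 * M * n := by
        have : 13 * M * n = 13 * (M * n) := by ring
        omega
      exact_mod_cast this
    have h5 : (2 : ℝ) ^ ((13 * M * n) ^ (2 * k)) ≤
        Real.log ((13 * M * n : ℕ) : ℝ) ^ ((13 * M * n) ^ (2 * k)) :=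
      pow_le_pow_left₀ (by norm_num) (two_le_log hC) _
    have h6 : (1 : ℝ) ≤ ((13 * M : ℕ) : ℝ) := by
      have : 1 ≤ 13 * M := by omega
      exact_mod_cast this
    calc (m : ℝ) ≤ _ := h4.trans h5
      _ ≤ ((13 * M : ℕ) : ℝ) * Real.log ((13 * M * n : ℕ) : ℝ) ^ ((13 * M * n) ^ (2 * k)) :=
        le_mul_of_one_le_left (le_trans (by positivity) h5) h6

end Pool.Agent.Results.MP_3fb3e0_al.ZUpperBound
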